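import Pool.Agent.H73.GWT.Stmts

/-! Row MUN of board `gwt`: a step is decoded by the message. -/

set_option autoImplicit false

open Classical

namespace GWT

variable {ι G V : Type*} [Fintype ι] [Group G] [MulAction G V] (C : Code ι G V)

theorem MUN.len_full {F F' : List (ι × List ι)} (b : List ι)
    (h : F.map Prod.snd = F'.map Prod.snd) : (full F b).length = (full F' b).length := by
  induction F generalizing F' with
  | nil =>
    cases F' with
    | nil => rfl
    | cons f' F' => simp at h
  | cons f F ih =>
    cases F' with
    | nil => simp at h
    | cons f' F' =>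
      simp only [List.map_cons, List.cons.injEq] at h
      simp only [full, List.length_append, List.length_cons]
      rw [h.1, ih h.2]

/-- the product of the letters of the top frame -/
theorem MUN.W_top (w : ℕ → G) (f : ι × List ι) (F : List (ι × List ι)) (b : List ι) :
    W C w (full (f :: F) b) = W C w (full F b) * C.c f.1 ^ 4 *
      (w ((full F b).length + 1) * vv C w f.2 ((full F b).length + 1)) := by
  show W C w (f.2 ++ f.1 :: full F b) = _
  rw [W_append]
  simp only [W, List.length_cons]
  group

theorem MUN.bet_eq (w : ℕ → G) (x : ι) (l : List ι) :
    bet C w x l = C.d C.o (cen C.tree C.o (W C w l • C.o)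
      ((W C w l * (C.c x ^ 4 * w (l.length + 1))) • C.o)) := by
  unfold bet
  simp only [W]
  rw [mul_assoc]

theorem MUN (h1 : LDCStmt C) (h2 : RDCStmt C) (h3 : PUNStmt C) (h4 : INVStmt C) : MUNStmt C := by
  intro w x x' l l' hmask hmsg
  obtain ⟨hf, hok⟩ := h4 w l
  obtain ⟨hf', hok'⟩ := h4 w l'
  have hst : St C w (x :: l) = if Good C w x l then ((x, []) :: (St C w l).1, (St C w l).2)
    else (pop C w (W C w l) (bet C w x l) (ini (LB C (W C w l) x) x (St C w l).1).1
      (ini (LB C (W C w l) x) x (St C w l).1).2.1 (St C w l).2).2 := rfl
  have hst' : St C w (x' :: l') = if Good C w x' l' then ((x', []) :: (St C w l').1, (St C w l').2)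
    else (pop C w (W C w l') (bet C w x' l') (ini (LB C (W C w l') x') x' (St C w l').1).1
      (ini (LB C (W C w l') x') x' (St C w l').1).2.1 (St C w l').2).2 := rfl
  rw [hst, hst']
  unfold msg at hmsg
  clear hst hst'
  generalize St C w l = S at *
  generalize St C w l' = S' at *
  obtain ⟨F, b⟩ := S
  obtain ⟨F', b'⟩ := S'
  simp only [mask, Prod.mk.injEq] at hmask
  obtain ⟨hF, rfl⟩ := hmask
  simp only at hf hf' hok hok' hmsg ⊢
  have hlen : l.length = l'.length := by
    rw [← hf, ← hf']
    exact MUN.len_full b hF
  by_cases hg : Good C w x l
  · by_cases hg' : Good C w x' l'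
    · rw [if_pos hg, if_pos hg']
      simp only [mask, List.map_cons]
      rw [hF]
    · rw [if_pos hg, if_neg hg'] at hmsg
      cases hmsg
  · by_cases hg' : Good C w x' l'
    · rw [if_neg hg, if_pos hg'] at hmsg
      cases hmsg
    · rw [if_neg hg, if_neg hg'] at hmsg
      rw [if_neg hg, if_neg hg']
      simp only [Msg.bad.injEq] at hmsg
      obtain ⟨hlb, hini, hpop⟩ := hmsg
      have hlb' : LB C (W C w l) x ↔ LB C (W C w l') x' := by
        have := hlb
        rw [decide_eq_decide] at this
        exact this
      by_cases hL : LB C (W C w l) x
      · have hL' := hlb'.1 hL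
        cases F with
        | nil =>
          cases F' with
          | cons f' F' => simp at hF
          | nil =>
            have hll : l = l' := by
              rw [← hf, ← hf']
            subst hll
            have hxx := h1.1 _ x x' hL hL'
            subst hxx
            rfl
        | cons f F₁ =>
          cases F' with
          | nil => simp at hF
          | cons f' F₁' =>
            simp only [List.map_cons, List.cons.injEq] at hF
            simp only [ini, if_pos hL, if_pos hL', Option.some.injEq] at hini hpop ⊢
            obtain ⟨hf2, hF1⟩ := hF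
            have hff : f = f' := Prod.ext hini hf2
            subst hff
            have hk := MUN.len_full b hF1
            have hW := MUN.W_top C w f F₁ b
            have hW' := MUN.W_top C w f F₁' b
            rw [hf] at hW
            rw [hf', ← hk] at hW'
            obtain ⟨o1, o2, o3, o4, o5⟩ := hok
            obtain ⟨p1, p2, p3, p4, p5⟩ := hok'
            have hΛ := C.Λ_pos
            have hxx : x = x' := by
              refine h1.2 (W C w (full F₁ b)) (W C w (full F₁' b))
                (w ((full F₁ b).length + 1) * vv C w f.2 ((full F₁ b).length + 1)) f.1 x x'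
                ?_ ?_ ?_ ?_ ?_ ?_
              · rw [← hW]; exact o3
              · rw [← hW, o4]; omega
              · rw [← hW']; exact p3
              · rw [← hW', p4]; omega
              · rw [← hW]; exact hL
              · rw [← hW']; exact hL'
            subst hxx
            rw [MUN.bet_eq, MUN.bet_eq, ← hlen] at hpop ⊢
            refine h3 w x (C.c x ^ 4 * w (l.length + 1)) F₁ F₁' (f.2 ++ [f.1]) b l l' _ _
              ?_ ?_ hF1 o5 p5 hpop
            · rw [← hf]; simp [full]
            · rw [← hf']; simp [full]
      · have hL' : ¬ LB C (W C w l') x' := fun h => hL (hlb'.2 h)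
        have hi : ∀ (y : ι) (H : List (ι × List ι)) (P : Prop), ¬ P →
            ini P y H = (H, [y], none) := by
          intro y H P hP
          cases H with
          | nil => rfl
          | cons f H => simp [ini, hP]
        rw [hi x F _ hL, hi x' F' _ hL'] at hpop ⊢
        simp only at hpop ⊢
        have hR : RB C x (w (l.length + 1)) := by
          by_contra hR
          exact hg ⟨hL, hR⟩
        have hR' : RB C x' (w (l.length + 1)) := by
          by_contra hR'
          apply hg'
          rw [hlen] at hR'
          exact ⟨hL', hR'⟩
        have hxx := h2 x x' _ hR hR'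
        subst hxx
        rw [MUN.bet_eq, MUN.bet_eq, ← hlen] at hpop ⊢
        exact h3 w x (C.c x ^ 4 * w (l.length + 1)) F F' [] b l l' _ _
          (by rw [← hf]; rfl) (by rw [← hf']; rfl) hF hok hok' hpop

end GWT
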